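import Pool.Agent.Lib.MP_8dfcc7_al.Density

/-!
# The equality `Γ_q = Γ_1^{(t)}(s)` for almost all denominators

For every nonzero integer `s`, the positive integers `t` coprime to `s` for which
`Γ_{s/t} ≠ Γ_1^{(t)}(s)` form a set of natural density zero.
-/

set_option autoImplicit false

namespace Pool.Agent.Results.MP_8dfcc7_al.AlmostAll

open Filter Pool.Agent.Lib.MP_8dfcc7_al

theorem result :
    ∀ s : ℤ, s ≠ 0 →
      Tendsto (fun N : ℕ => (({t : ℕ | 1 ≤ t ∧ t ≤ N ∧ IsCoprime s (t : ℤ) ∧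
        (Gam ((s : ℝ) / (t : ℝ)) : Set SL2) ≠ GamOne s (t : ℤ)}.ncard : ℕ) : ℝ) / (N : ℝ))
        atTop (nhds 0) := by
  intro s hs
  have h := dz_main s hs
  unfold DZ at h
  refine h.congr (fun N => ?_)
  congr 3
  ext t
  simp only [Set.mem_inter_iff, Set.mem_ofPred_eq, Set.mem_Icc, Int.cast_natCast]
  tauto

end Pool.Agent.Results.MP_8dfcc7_al.AlmostAll
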