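import Pool.Agent.Lib.MP_8dfcc7_al.Criterion

/-!
# A divisor criterion for `U_q ≠ H`
-/

set_option autoImplicit false

namespace Pool.Agent.Results.MP_8dfcc7_al.DivisorCriterion

open Pool.Agent.Lib.MP_8dfcc7_al

theorem result :
    ∀ s t y m m' : ℤ, t ≠ 0 → s * m ∣ t * y - 1 → s * m' ∣ t * y - 1 → y ∣ m + m' →
      ¬ t * y ∣ m + m' → UpperNe ((s : ℝ) / (t : ℝ)) := by
  intro s t y m m' ht h1 h2 h3 h4
  exact upperNe_of_dvd s t y m m' ht h1 h2 h3 h4

end Pool.Agent.Results.MP_8dfcc7_al.DivisorCriterion
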