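import Pool.Agent.Lib.MP_8dfcc7_al.NotFreeAux

/-!
# The groups `Γ_q` with `q` rational and `0 < |q| < 4` are never free

For every nonzero rational number `q` with `|q| < 4`, the group generated by the matrices with rows
`(1, 1), (0, 1)` and `(1, 0), (q, 1)` is not a free group.
-/

set_option autoImplicit false

namespace Pool.Agent.Results.MP_8dfcc7_al.NotFree

open Pool.Agent.Lib.MP_8dfcc7_al

theorem result : ∀ q : ℚ, q ≠ 0 → |q| < 4 → ¬ IsFreeGroup (Gam (q : ℝ)) :=
  fun q h0 h4 => not_isFreeGroup q h0 h4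

end Pool.Agent.Results.MP_8dfcc7_al.NotFree
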